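import Mathlib
import Pool.Agent.X215.CombBan.Basic

/-!
There is a family `𝓕` of finite sets of nodes of the binary tree such that `X_{𝓕 ↾ H}` does not
contain `c₀` if and only if `H` is a union of finitely many antichains.
-/

namespace Pool.Agent.Results.MP_de5a3f_an.AntichainCover

open Pool.Agent.X215.CombBan Set

/-- The restriction `𝓕 ↾ H = {F ∩ H : F ∈ 𝓕}`. -/
def restrict {Ω : Type} (𝓕 : Cover Ω) (H : Set Ω) : Cover H where
  sets := {G | ∃ F ∈ 𝓕.sets, ∀ k : H, k ∈ G ↔ (k : Ω) ∈ F}
  covers := fun k => by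
    classical
    obtain ⟨F, hF, hk⟩ := 𝓕.covers k
    refine ⟨F.subtype (· ∈ H), ⟨F, hF, fun k => Finset.mem_subtype⟩, Finset.mem_subtype.2 hk⟩

/-- The family: finite antichains, and finite chains `F` all of whose elements have length at least
`|F|`. -/
def fam : Cover (List Bool) where
  sets := {F | IsAntichain (· <+: ·) (F : Set (List Bool)) ∨
    (IsChain (· <+: ·) (F : Set (List Bool)) ∧ ∀ s ∈ F, F.card ≤ s.length)}
  covers := fun k => ⟨{k}, Or.inl (by simp), Finset.mem_singleton_self k⟩

theorem mem_restrict_of {H : Set (List Bool)} {G : Finset H}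
    (h : IsAntichain (fun s t : H => (s : List Bool) <+: t) (G : Set H) ∨
      (IsChain (fun s t : H => (s : List Bool) <+: t) (G : Set H) ∧
        ∀ s ∈ G, G.card ≤ (s : List Bool).length)) :
    G ∈ (restrict fam H).sets := by
  classical
  refine ⟨G.map (Function.Embedding.subtype _), ?_, fun k => ?_⟩
  · rcases h with h | ⟨h, h'⟩
    · refine Or.inl ?_
      intro s hs t ht hst
      rw [Finset.coe_map] at hs ht
      obtain ⟨s, hs, rfl⟩ := hs
      obtain ⟨t, ht, rfl⟩ := ht
      exact h hs ht fun h => hst (by rw [h])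
    · refine Or.inr ⟨?_, ?_⟩
      · intro s hs t ht hst
        rw [Finset.coe_map] at hs ht
        obtain ⟨s, hs, rfl⟩ := hs
        obtain ⟨t, ht, rfl⟩ := ht
        exact h hs ht fun h => hst (by rw [h])
      · intro s hs
        rw [Finset.mem_map] at hs
        obtain ⟨s, hs, rfl⟩ := hs
        rw [Finset.card_map]
        exact h' s hs
  · constructor
    · intro hk
      exact Finset.mem_map.2 ⟨k, hk, rfl⟩
    · intro hk
      obtain ⟨k', hk', h⟩ := Finset.mem_map.1 hk
      rwa [Subtype.ext h] at hk'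

theorem of_mem_restrict {H : Set (List Bool)} {G : Finset H} (h : G ∈ (restrict fam H).sets) :
    IsAntichain (fun s t : H => (s : List Bool) <+: t) (G : Set H) ∨
      (IsChain (fun s t : H => (s : List Bool) <+: t) (G : Set H) ∧
        ∀ s ∈ G, G.card ≤ (s : List Bool).length) := by
  classical
  obtain ⟨F, hF, hG⟩ := h
  have hcard : G.card ≤ F.card := by
    rw [← Finset.card_map (Function.Embedding.subtype _)]
    refine Finset.card_le_card fun s hs => ?_
    obtain ⟨k, hk, rfl⟩ := Finset.mem_map.1 hs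
    exact (hG k).1 hk
  rcases hF with hF | ⟨hF, hF'⟩
  · refine Or.inl fun s hs t ht hst => ?_
    exact hF ((hG s).1 hs) ((hG t).1 ht) fun h => hst (Subtype.ext h)
  · refine Or.inr ⟨fun s hs t ht hst => ?_, fun s hs => ?_⟩
    · exact hF ((hG s).1 hs) ((hG t).1 ht) fun h => hst (Subtype.ext h)
    · exact hcard.trans (hF' _ ((hG s).1 hs))

theorem sum_biUnion_le {ι α : Type} [DecidableEq α] (I : Finset ι) (t : ι → Finset α)
    (f : α → ℝ) (hf : ∀ a, 0 ≤ f a) : ∑ a ∈ I.biUnion t, f a ≤ ∑ i ∈ I, ∑ a ∈ t i, f a := by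
  classical
  induction I using Finset.induction_on with
  | empty => simp
  | insert i I hi ih =>
    rw [Finset.biUnion_insert, Finset.sum_insert hi]
    have h1 := Finset.sum_union_inter (s₁ := t i) (s₂ := I.biUnion t) (f := f)
    have h2 : 0 ≤ ∑ a ∈ t i ∩ I.biUnion t, f a := Finset.sum_nonneg fun a _ => hf a
    linarith

/-- Finite unions of antichains. -/
theorem not_contains_of {H : Set (List Bool)} {r : ℕ} {A : Fin r → Set (List Bool)}
    (hA : ∀ i, IsAntichain (· <+: ·) (A i)) (hH : H = ⋃ i, A i) :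
    ¬ ContainsC0 (XSpace (restrict fam H)) := by
  classical
  refine not_containsC0 (restrict fam H) (r := r) fun x => ?_
  have h1 : l1 x ≤ ∑ i : Fin r, ∑ k ∈ x.support.filter (fun k : H => (k : List Bool) ∈ A i), |x k| := by
    unfold l1
    have h2 : x.support ⊆ Finset.univ.biUnion fun i : Fin r =>
        x.support.filter fun k : H => (k : List Bool) ∈ A i := by
      intro k hk
      have h3 : (k : List Bool) ∈ ⋃ i, A i := hH ▸ k.2
      obtain ⟨i, hi⟩ := mem_iUnion.1 h3
      exact Finset.mem_biUnion.2 ⟨i, Finset.mem_univ _, Finset.mem_filter.2 ⟨hk, hi⟩⟩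
    refine (Finset.sum_le_sum_of_subset_of_nonneg h2 fun _ _ _ => abs_nonneg _).trans ?_
    exact sum_biUnion_le _ _ _ fun _ => abs_nonneg _
  refine h1.trans ?_
  have h2 : ∀ i : Fin r, ∑ k ∈ x.support.filter (fun k : H => (k : List Bool) ∈ A i), |x k| ≤
      nrm (restrict fam H) x := by
    intro i
    refine le_nrm _ x (mem_restrict_of (Or.inl ?_))
    intro s hs t ht hst
    have hs' : (s : List Bool) ∈ A i := (Finset.mem_filter.1 (Finset.mem_coe.1 hs)).2
    have ht' : (t : List Bool) ∈ A i := (Finset.mem_filter.1 (Finset.mem_coe.1 ht)).2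
    exact hA i hs' ht' fun h => hst (Subtype.ext h)
  refine (Finset.sum_le_sum fun i _ => h2 i).trans ?_
  rw [Finset.sum_const, Finset.card_univ, Fintype.card_fin, nsmul_eq_mul]

/-- The set of all prefixes of `h` which are in `H`. -/
noncomputable def pre (H : Set (List Bool)) (h : List Bool) : Finset H :=
  open Classical in h.inits.toFinset.subtype (· ∈ H)

theorem mem_pre {H : Set (List Bool)} {h : List Bool} {s : H} : s ∈ pre H h ↔ (s : List Bool) <+: h := by
  classical
  unfold pre
  rw [Finset.mem_subtype, List.mem_toFinset, List.mem_inits]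

theorem exists_large_pre {H : Set (List Bool)}
    (hH : ¬ ∃ (r : ℕ) (A : Fin r → Set (List Bool)), (∀ i, IsAntichain (· <+: ·) (A i)) ∧
      H = ⋃ i, A i) (m : ℕ) : ∃ h ∈ H, m ≤ (pre H h).card := by
  classical
  by_contra hcon
  push Not at hcon
  refine hH ⟨m, fun i => {h | h ∈ H ∧ (pre H h).card = i}, fun i => ?_, ?_⟩
  · intro s hs t ht hst hpre
    have h1 : pre H s ⊂ pre H t := by
      refine Finset.ssubset_iff_subset_ne.2 ⟨fun k hk => ?_, fun heq => ?_⟩
      · exact mem_pre.2 ((mem_pre.1 hk).trans hpre)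
      · have h2 : (⟨t, ht.1⟩ : H) ∈ pre H s := by
          rw [heq]; exact mem_pre.2 List.prefix_rfl
        have h3 : t <+: s := mem_pre.1 h2
        exact hst (hpre.eq_of_length_le h3.length_le)
    have h2 := Finset.card_lt_card h1
    rw [hs.2, ht.2] at h2
    exact lt_irrefl _ h2
  · ext h
    simp only [mem_iUnion, Set.mem_ofPred_eq]
    constructor
    · intro hh
      exact ⟨⟨_, hcon h hh⟩, hh, rfl⟩
    · rintro ⟨_, hh, _⟩
      exact hh

theorem exists_chain {H : Set (List Bool)}
    (hH : ¬ ∃ (r : ℕ) (A : Fin r → Set (List Bool)), (∀ i, IsAntichain (· <+: ·) (A i)) ∧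
      H = ⋃ i, A i) (m : ℕ) : ∃ G : Finset H, G.card = m ∧
        IsChain (fun s t : H => (s : List Bool) <+: t) (G : Set H) ∧
        ∀ s ∈ G, m ≤ (s : List Bool).length := by
  classical
  obtain ⟨h, _, hm⟩ := exists_large_pre hH (m + m)
  have hchain : ∀ s ∈ pre H h, ∀ t ∈ pre H h, (s : List Bool) <+: t ∨ (t : List Bool) <+: s := by
    intro s hs t ht
    exact List.prefix_or_prefix_of_prefix (mem_pre.1 hs) (mem_pre.1 ht)
  have h1 : ((pre H h).filter fun s : H => (s : List Bool).length < m).card ≤ m := by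
    have h2 : (((pre H h).filter fun s : H => (s : List Bool).length < m).image
        fun s : H => (s : List Bool).length).card =
        ((pre H h).filter fun s : H => (s : List Bool).length < m).card := by
      refine Finset.card_image_of_injOn ?_
      intro s hs t ht hst
      have hs' := (Finset.mem_filter.1 (Finset.mem_coe.1 hs)).1
      have ht' := (Finset.mem_filter.1 (Finset.mem_coe.1 ht)).1
      rcases hchain s hs' t ht' with h3 | h3
      · exact Subtype.ext (h3.eq_of_length hst)
      · exact (Subtype.ext (h3.eq_of_length hst.symm)).symm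
    rw [← h2]
    refine (Finset.card_le_card (t := Finset.range m) ?_).trans (Finset.card_range m).le
    intro n hn
    obtain ⟨s, hs, rfl⟩ := Finset.mem_image.1 hn
    exact Finset.mem_range.2 (Finset.mem_filter.1 hs).2
  have h2 := Finset.card_filter_add_card_filter_not (s := pre H h)
    (fun s : H => (s : List Bool).length < m)
  have h3 : m ≤ ((pre H h).filter fun s : H => ¬ (s : List Bool).length < m).card := by
    omega
  obtain ⟨G, hG, hGm⟩ := Finset.exists_subset_card_eq h3
  refine ⟨G, hGm, ?_, fun s hs => ?_⟩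
  · intro s hs t ht _
    exact hchain s (Finset.mem_filter.1 (hG hs)).1 t (Finset.mem_filter.1 (hG ht)).1
  · exact not_lt.1 (Finset.mem_filter.1 (hG hs)).2

theorem sum_half_le (E : Finset ℕ) : ∑ k ∈ E, (1 / 2 : ℝ) ^ (k + 1) ≤ 1 := by
  have h9 := Summable.sum_le_tsum E (fun n _ => by positivity)
    (summable_geometric_of_lt_one (by norm_num : (0 : ℝ) ≤ 1 / 2) (by norm_num))
  rw [tsum_geometric_of_lt_one (by norm_num) (by norm_num)] at h9
  have h10 : ∑ k ∈ E, (1 / 2 : ℝ) ^ (k + 1) = (∑ k ∈ E, (1 / 2 : ℝ) ^ k) / 2 := by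
    rw [Finset.sum_div]
    exact Finset.sum_congr rfl fun k _ => by rw [pow_succ]; ring
  rw [h10]
  norm_num at h9 ⊢
  linarith

/-- Sets which are not finite unions of antichains. -/
theorem contains_of {H : Set (List Bool)}
    (hH : ¬ ∃ (r : ℕ) (A : Fin r → Set (List Bool)), (∀ i, IsAntichain (· <+: ·) (A i)) ∧
      H = ⋃ i, A i) : ContainsC0 (XSpace (restrict fam H)) := by
  classical
  choose G hGcard hGchain hGlen using exists_chain hH
  let L : ℕ → ℕ := fun m => (G m).sup fun s => (s : List Bool).length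
  have hL : ∀ m, ∀ s ∈ G m, (s : List Bool).length ≤ L m := fun m s hs =>
    Finset.le_sup (f := fun s : H => (s : List Bool).length) hs
  obtain ⟨m, hm0, hmS⟩ : ∃ m : ℕ → ℕ, m 0 = 2 ∧
      ∀ k, m (k + 1) = 2 ^ (k + 2) * (L (m k) + 1) :=
    ⟨fun k => Nat.rec 2 (fun k mk => 2 ^ (k + 2) * (L mk + 1)) k, rfl, fun _ => rfl⟩
  have hmpow : ∀ k, 2 ^ (k + 1) ≤ m k := by
    intro k
    cases k with
    | zero => rw [hm0]; norm_num
    | succ k => rw [hmS]; exact Nat.le_mul_of_pos_right _ (Nat.succ_pos _)
  have hmpos : ∀ k, 0 < m k := fun k => lt_of_lt_of_le (by positivity) (hmpow k)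
  have hLm : ∀ k, m k ≤ L (m k) := by
    intro k
    have h1 : (G (m k)).Nonempty := by
      rw [← Finset.card_pos, hGcard]; exact hmpos k
    obtain ⟨s, hs⟩ := h1
    exact (hGlen _ s hs).trans (hL _ s hs)
  have hLmono : ∀ j k, j < k → 2 ^ (k + 1) * (L (m j) + 1) ≤ m k := by
    intro j k hjk
    induction k, hjk using Nat.le_induction with
    | base => exact (hmS j).ge
    | succ k hk ih =>
      rw [hmS]
      refine Nat.mul_le_mul_left _ (Nat.succ_le_succ ?_)
      refine le_trans ?_ (hLm k)
      refine le_trans ?_ ih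
      have : 1 ≤ 2 ^ (k + 1) := Nat.one_le_two_pow
      nlinarith
  have hdisj : ∀ j k, j ≠ k → ∀ s ∈ G (m j), s ∉ G (m k) := by
    have key : ∀ j k, j < k → ∀ s ∈ G (m j), s ∉ G (m k) := by
      intro j k hjk s hs hs'
      have h1 := hL _ s hs
      have h2 := hGlen _ s hs'
      have h3 := hLmono j k hjk
      have : 1 ≤ 2 ^ (k + 1) := Nat.one_le_two_pow
      nlinarith
    intro j k hjk s hs hs'
    rcases lt_or_gt_of_ne hjk with h | h
    · exact key j k h s hs hs'
    · exact key k j h s hs' hs
  let g : ℕ → H → ℝ := fun k s => if s ∈ G (m k) then 1 / ((m k : ℕ) : ℝ) else 0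
  let u : ℕ → (H →₀ ℝ) := fun k => Finsupp.onFinset (G (m k)) (g k) (fun s hs => by
      by_contra h
      exact hs (if_neg h))
  have hu : ∀ k s, u k s = if s ∈ G (m k) then 1 / (m k : ℝ) else 0 := fun k s => rfl
  have hsum : ∀ (E : Finset ℕ) (a : ℕ → ℝ) (s : H), (∑ k ∈ E, a k • u k) s =
      ∑ k ∈ E, a k * (if s ∈ G (m k) then 1 / (m k : ℝ) else 0) := by
    intro E a s
    rw [Finsupp.finsetSum_apply]
    exact Finset.sum_congr rfl fun k _ => by rw [Finsupp.smul_apply, smul_eq_mul, hu]
  have hbd : ∀ (F : Finset H) (E : Finset ℕ) (a : ℕ → ℝ) (M : ℝ), 0 ≤ M → (∀ k ∈ E, |a k| ≤ M) →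
      ∑ s ∈ F, |(∑ k ∈ E, a k • u k) s| ≤ M * ∑ k ∈ E, ((F ∩ G (m k)).card : ℝ) / (m k : ℝ) := by
    intro F E a M hM ha
    have h1 : ∀ s ∈ F, |(∑ k ∈ E, a k • u k) s| ≤
        ∑ k ∈ E, M * (if s ∈ G (m k) then 1 / (m k : ℝ) else 0) := by
      intro s _
      rw [hsum]
      refine (Finset.abs_sum_le_sum_abs _ _).trans (Finset.sum_le_sum fun k hk => ?_)
      rw [abs_mul]
      have h2 : (0 : ℝ) ≤ if s ∈ G (m k) then 1 / (m k : ℝ) else 0 := by
        split_ifs <;> positivity
      rw [abs_of_nonneg h2]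
      exact mul_le_mul_of_nonneg_right (ha k hk) h2
    refine (Finset.sum_le_sum h1).trans ?_
    rw [Finset.sum_comm, Finset.mul_sum]
    refine (Finset.sum_congr rfl fun k _ => ?_).le
    rw [← Finset.mul_sum, ← Finset.sum_filter, Finset.sum_const, Finset.filter_mem_eq_inter,
      nsmul_eq_mul]
    ring
  refine containsC0_of (restrict fam H) u ?_ ?_
  · intro E a M hM ha
    refine nrm_le _ _ (by positivity) fun F hF => (hbd F E a M hM ha).trans ?_
    rw [mul_comm 2 M]
    refine mul_le_mul_of_nonneg_left ?_ hM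
    rcases of_mem_restrict hF with hF | ⟨_, hF⟩
    · -- antichains
      have h1 : ∀ k ∈ E, ((F ∩ G (m k)).card : ℝ) / m k ≤ (1 / 2) ^ (k + 1) := by
        intro k _
        have h2 : (F ∩ G (m k)).card ≤ 1 := by
          rw [Finset.card_le_one]
          intro s hs t ht
          by_contra hst
          rw [Finset.mem_inter] at hs ht
          rcases hGchain (m k) hs.2 ht.2 hst with h | h
          · exact hF hs.1 ht.1 hst h
          · exact hF ht.1 hs.1 (Ne.symm hst) h
        have h3 : ((F ∩ G (m k)).card : ℝ) ≤ 1 := by exact_mod_cast h2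
        have h4 : (2 : ℝ) ^ (k + 1) ≤ m k := by exact_mod_cast hmpow k
        rw [one_div, inv_pow, ← one_div]
        exact div_le_div₀ zero_le_one h3 (by positivity) h4
      have h2 := (Finset.sum_le_sum h1).trans (sum_half_le E)
      linarith
    · -- chains
      by_cases hne : ∃ k, k ∈ E ∧ (F ∩ G (m k)).Nonempty
      · have h1 : ∀ k ∈ E, ((F ∩ G (m k)).card : ℝ) / m k ≤
            (if k = Nat.find hne then 1 else 0) + (1 / 2) ^ (k + 1) := by
          intro k hk
          rcases lt_trichotomy k (Nat.find hne) with h | h | h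
          · have h2 := Nat.find_min hne h
            have h3 : F ∩ G (m k) = ∅ := by
              by_contra h4
              exact h2 ⟨hk, Finset.nonempty_iff_ne_empty.2 h4⟩
            rw [h3, Finset.card_empty, if_neg h.ne, Nat.cast_zero, zero_div, zero_add]
            positivity
          · rw [if_pos h]
            have h2 : ((F ∩ G (m k)).card : ℝ) ≤ m k := by
              have : (F ∩ G (m k)).card ≤ m k :=
                (Finset.card_le_card Finset.inter_subset_right).trans (hGcard _).le
              exact_mod_cast this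
            have h3 : ((F ∩ G (m k)).card : ℝ) / m k ≤ 1 :=
              div_le_one_of_le₀ h2 (by positivity)
            have h4 : (0 : ℝ) ≤ (1 / 2) ^ (k + 1) := by positivity
            linarith
          · rw [if_neg h.ne', zero_add]
            obtain ⟨_, s, hs⟩ := Nat.find_spec hne
            rw [Finset.mem_inter] at hs
            have h2 : (F ∩ G (m k)).card ≤ L (m (Nat.find hne)) :=
              ((Finset.card_le_card Finset.inter_subset_left).trans (hF s hs.1)).trans
                (hL _ s hs.2)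
            have h3 := hLmono _ _ h
            have h4 : 2 ^ (k + 1) * (F ∩ G (m k)).card ≤ m k :=
              (Nat.mul_le_mul_left _ (h2.trans (Nat.le_succ _))).trans h3
            have h5 : (2 : ℝ) ^ (k + 1) * (F ∩ G (m k)).card ≤ m k := by exact_mod_cast h4
            rw [div_le_iff₀ (by exact_mod_cast hmpos k), one_div, inv_pow,
              inv_mul_eq_div, le_div_iff₀ (by positivity), mul_comm]
            exact h5
        refine (Finset.sum_le_sum h1).trans ?_
        rw [Finset.sum_add_distrib, Finset.sum_ite_eq']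
        have h2 := sum_half_le E
        split_ifs <;> linarith
      · have h1 : ∀ k ∈ E, ((F ∩ G (m k)).card : ℝ) / m k = 0 := by
          intro k hk
          have h3 : F ∩ G (m k) = ∅ := by
            by_contra h4
            exact hne ⟨k, hk, Finset.nonempty_iff_ne_empty.2 h4⟩
          rw [h3, Finset.card_empty]
          simp
        rw [Finset.sum_eq_zero h1]
        norm_num
  · intro E a j hj
    have hG : G (m j) ∈ (restrict fam H).sets :=
      mem_restrict_of (Or.inr ⟨hGchain _, fun s hs => (hGcard _).le.trans (hGlen _ s hs)⟩)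
    refine le_trans ?_ (le_nrm _ _ hG)
    have h1 : ∀ s ∈ G (m j), |(∑ k ∈ E, a k • u k) s| = |a j| * (1 / m j) := by
      intro s hs
      rw [hsum, Finset.sum_eq_single j]
      · rw [if_pos hs, abs_mul, abs_of_nonneg (by positivity : (0 : ℝ) ≤ 1 / m j)]
      · intro k _ hkj
        rw [if_neg (hdisj j k (Ne.symm hkj) s hs), mul_zero]
      · exact fun h => absurd hj h
    rw [Finset.sum_congr rfl h1, Finset.sum_const, hGcard, nsmul_eq_mul]
    have h2 : (m j : ℝ) ≠ 0 := by exact_mod_cast (hmpos j).ne'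
    field_simp
    exact le_rfl

/-- The answer to the question is positive. -/
theorem result : ∃ 𝓕 : Cover (List Bool),
    {H : Set (List Bool) | ¬ ContainsC0 (XSpace (restrict 𝓕 H))} =
      {H | ∃ (r : ℕ) (A : Fin r → Set (List Bool)), (∀ i, IsAntichain (· <+: ·) (A i)) ∧
        H = ⋃ i, A i} := by
  refine ⟨fam, Set.ext fun H => ⟨fun h => ?_, ?_⟩⟩
  · by_contra hcon
    exact h (contains_of hcon)
  · rintro ⟨r, A, hA, hH⟩
    exact not_contains_of hA hH

end Pool.Agent.Results.MP_de5a3f_an.AntichainCover
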